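import Pool.Agent.TH294.RG.Eq1
import Pool.Agent.TH294.RG.Th3

/-!
# Equidistribution and the fourth moment of eigenfunctions (MP_ed6ab2_an)

A Riemannian surface in isothermal coordinates: an open set `Ω ⊆ ℂ` with the metric `ρ |dz|²`,
area measure `ρ dx dy`. For a closed surface of genus at least two `Ω` is the universal cover (the
unit disc) with the lifted metric and `U` the interior of a fundamental domain. `dx f z`, `dy f z`
are the partial derivatives `fderiv ℝ f z 1`, `fderiv ℝ f z I`, and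
`lap f = dx (dx f) + dy (dy f)`; `TF U φ` says that `φ : ℂ → ℝ` is smooth with compact support
contained in `U`.

In the metric rescaled by `λ` the operator `D = (λ ρ)^{-1/2} (∂x - i ∂y)` is the derivative
`∂_1 - i ∂_2` in the conformal orthonormal frame; at a unit momentum of direction `α` its symbol is
`sym α = i exp(-iα)`. The hypothesis `hsc` says that `u n` has the semiclassical measure
`m(z) ν_z(dα) dvol(z)` on the unit cosphere bundle over `Ω`; the hypothesis `hpar` says that `ν_z`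
has no atoms modulo `π`. Nothing is assumed about `m` besides local square integrability.

Proof idea: the sharp lower bound `liminf ∫_U u⁴ dvol ≥ 3 ∫_U m² dvol` for the fourth moment, and
`∫_U m dvol = vol U` since the fourth moments are bounded.
-/

set_option autoImplicit false
open MeasureTheory Filter Topology Complex ProbabilityTheory
open scoped ContDiff

namespace Pool.Agent.Results.MP_ed6ab2_an.FourthMomentCriterion

open Pool.Agent.W745.RW

/-- the normalised frame derivative `(λ ρ)^{-1/2} (∂x - i ∂y)` -/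
noncomputable def D (ρ : ℂ → ℝ) (lam : ℝ) (f : ℂ → ℂ) (z : ℂ) : ℂ :=
  ((1 / √(lam * ρ z) : ℝ) : ℂ) * (dx f z - I * dy f z)

/-- the symbol of `D` at a unit momentum of direction `α` -/
noncomputable def sym (α : ℝ) : ℂ := I * Complex.exp (-(α : ℂ) * I)

/-- the probability that two independent directions of law `ν` are parallel (equal or opposite) -/
noncomputable def parallel (ν : Measure ℝ) : ℝ :=
  (ν.prod ν).real {p | Real.sin (p.1 - p.2) = 0}

/-- **Result.** Let `u n` be real solutions of `Δu + λ_n u = 0` for the metric `ρ |dz|²` on `Ω`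
(that is `lap u + λ_n ρ u = 0`), `λ_n → ∞`, with semiclassical measure `m(z) ν_z dvol(z)`, `m`
locally square integrable and `ν_z` without atoms modulo `π`. Let `U` be open with compact closure
in `Ω`, `∫_U u² dvol → vol(U)` and `limsup ∫_U u⁴ dvol ≤ L vol(U)`. Then for every test function `φ`
supported in `U` and `ε > 0`, for all large `n`

`(∫ φ (u² - 1) dvol)² ≤ (L/3 - 1) vol(U) ∫ φ² dvol + ε`.

In particular `u²` is equidistributed in `U` if `L = 3`, the value for the Gaussian wave. -/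
theorem result (Ω : Set ℂ) (hΩ : IsOpen Ω) (ρ : ℂ → ℝ) (hρ : ContDiffOn ℝ ∞ ρ Ω)
    (hρ0 : ∀ z ∈ Ω, 0 < ρ z) (lam : ℕ → ℝ) (hpos : ∀ n, 0 < lam n)
    (hlam : Tendsto lam atTop atTop) (u : ℕ → ℂ → ℝ) (hu : ∀ n, ContDiffOn ℝ ∞ (u n) Ω)
    (heq : ∀ n, ∀ z ∈ Ω, lap (u n) z + lam n * (ρ z * u n z) = 0)
    (m : ℂ → ℝ) (hm : ∀ K : Set ℂ, IsCompact K → K ⊆ Ω → MemLp m 2 (volume.restrict K))
    (ν : Kernel ℂ ℝ) [IsMarkovKernel ν]
    (hsc : ∀ φ, TF Ω φ → ∀ k : ℕ, Tendsto (fun n => ∫ z, ((φ z * ρ z : ℝ) : ℂ) *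
      ((u n z : ℂ) * (D ρ (lam n))^[k] (fun w => (u n w : ℂ)) z)) atTop
      (𝓝 (∫ z, ((φ z * ρ z : ℝ) : ℂ) * ((m z : ℂ) * ∫ α, sym α ^ k ∂(ν z)))))
    (hpar : ∀ᵐ z ∂(volume.restrict Ω), parallel (ν z) = 0)
    (U : Set ℂ) (hU : IsOpen U) (hUc : IsCompact (closure U)) (hUΩ : closure U ⊆ Ω)
    (hmass : Tendsto (fun n => ∫ z in U, ρ z * u n z ^ 2) atTop (𝓝 (∫ z in U, ρ z)))
    (L : ℝ) (hL : ∀ δ : ℝ, 0 < δ → ∀ᶠ n in atTop,
      ∫ z in U, ρ z * u n z ^ 4 ≤ (L + δ) * ∫ z in U, ρ z)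
    (φ : ℂ → ℝ) (hφ : TF U φ) (ε : ℝ) (hε : 0 < ε) :
    ∀ᶠ n in atTop, (∫ z, φ z * ρ z * (u n z ^ 2 - 1)) ^ 2 ≤
      (L / 3 - 1) * (∫ z in U, ρ z) * (∫ z, φ z ^ 2 * ρ z) + ε := by
  have H := Pool.Agent.TH294.RG.rawG_met (M := Pool.Agent.TH294.RG.MM m
    Pool.Agent.TH294.RG.ea ν) hΩ hpos hlam hρ hρ0 hu heq hsc
  have hp : ∀ᵐ z ∂(volume.restrict Ω), Pool.Agent.TH294.RG.par Pool.Agent.TH294.RG.ea (ν z) = 0 := by
    filter_upwards [hpar] with z hz
    simp only [Pool.Agent.TH294.RG.par, Pool.Agent.TH294.RG.ea_par]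
    exact hz
  exact Pool.Agent.TH294.RG.eq_crit hΩ hm hp H hU hUc hUΩ hρ hρ0 hmass hL hφ hε

end Pool.Agent.Results.MP_ed6ab2_an.FourthMomentCriterion
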